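import Pool.Agent.Helper83.HM.NullTools
import Pool.Agent.Helper40.HM.Generic
import Pool.Agent.Helper43.HM.HechlerReal

/-!
# HM-H2: the null sets of stage `α` are covered by countably many null sets
-/

set_option autoImplicit false
set_option linter.unusedSectionVars false

namespace Pool.Agent.Helper33.HM

universe u

/-! ## Combinatorics -/

theorem h5_enum : ∃ w : ℕ → ℕ → Finset (List Bool),
    (∀ n j, ∃ l, (∀ σ ∈ w n j, σ.length = l) ∧ (w n j).card * 2 ^ n < 2 ^ l) ∧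
    ∀ n, ∀ G : Finset (List Bool), (∃ l, (∀ σ ∈ G, σ.length = l) ∧ G.card * 2 ^ n < 2 ^ l) →
      ∀ N, ∃ j, N ≤ j ∧ w n j = G := by
  classical
  have h : ∀ n : ℕ, ∃ w : ℕ → Finset (List Bool),
      (∀ j, ∃ l, (∀ σ ∈ w j, σ.length = l) ∧ (w j).card * 2 ^ n < 2 ^ l) ∧
      ∀ G : Finset (List Bool), (∃ l, (∀ σ ∈ G, σ.length = l) ∧ G.card * 2 ^ n < 2 ^ l) →
        ∀ N, ∃ j, N ≤ j ∧ w j = G := by
    intro n
    let P : Finset (List Bool) → Prop := fun G =>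
      ∃ l, (∀ σ ∈ G, σ.length = l) ∧ G.card * 2 ^ n < 2 ^ l
    have hne : Nonempty {G // P G} := ⟨⟨∅, 0, by simp, by simp⟩⟩
    obtain ⟨e, he⟩ := exists_surjective_nat {G // P G}
    refine ⟨fun j => (e j.unpair.1).1, fun j => (e j.unpair.1).2, ?_⟩
    intro G hG N
    obtain ⟨i, hi⟩ := he ⟨G, hG⟩
    exact ⟨Nat.pair i N, Nat.right_le_pair i N, by simp [hi]⟩
  choose w h1 h2 using h
  exact ⟨w, h1, h2⟩

def h5PU (w : ℕ → ℕ → Finset (List Bool)) (D D' : ℕ → ℕ) (k : ℕ) (τ : List Bool) : Prop :=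
  ∃ n, (k ≤ n ∧ n ≤ D' k) ∧ ∃ ρ ∈ w n (D n), ρ <+: τ

def h5PH (w : ℕ → ℕ → Finset (List Bool)) (D D' : ℕ → ℕ) (m : ℕ) (σ : List Bool) : Prop :=
  ∀ M, ∃ τ, σ <+: τ ∧ ∀ k, m ≤ k ∧ k ≤ M → h5PU w D D' k τ

theorem h5PU_mono {w : ℕ → ℕ → Finset (List Bool)} {D D' : ℕ → ℕ} {k : ℕ} {τ τ' : List Bool}
    (h : τ <+: τ') (hu : h5PU w D D' k τ) : h5PU w D D' k τ' := by
  obtain ⟨n, hn, ρ, hρ, hp⟩ := hu
  exact ⟨n, hn, ρ, hρ, hp.trans h⟩

theorem h5PH_iff (w : ℕ → ℕ → Finset (List Bool)) (D D' : ℕ → ℕ) (m : ℕ) (σ : List Bool) :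
    h5PH w D D' m σ ↔ (h5PH w D D' m (σ ++ [false]) ∨ h5PH w D D' m (σ ++ [true])) := by
  constructor
  · intro h
    by_contra hcon
    rw [not_or] at hcon
    obtain ⟨h1, h2⟩ := hcon
    unfold h5PH at h1 h2
    push Not at h1 h2
    obtain ⟨M1, h1⟩ := h1
    obtain ⟨M2, h2⟩ := h2
    obtain ⟨τ, ⟨t, rfl⟩, hk⟩ := h (max M1 M2)
    rcases t with _ | ⟨b, t⟩
    · obtain ⟨k, ⟨hk1, hk2⟩, hk3⟩ := h1 (σ ++ [false]) List.prefix_rfl
      refine hk3 (h5PU_mono ?_ (hk k ⟨hk1, hk2.trans (le_max_left _ _)⟩))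
      simp
    · rcases b with _ | _
      · obtain ⟨k, ⟨hk1, hk2⟩, hk3⟩ := h1 (σ ++ false :: t) ⟨t, by simp⟩
        exact hk3 (hk k ⟨hk1, hk2.trans (le_max_left _ _)⟩)
      · obtain ⟨k, ⟨hk1, hk2⟩, hk3⟩ := h2 (σ ++ true :: t) ⟨t, by simp⟩
        exact hk3 (hk k ⟨hk1, hk2.trans (le_max_right _ _)⟩)
  · rintro (h | h) M
    · obtain ⟨τ, hτ, hk⟩ := h M
      exact ⟨τ, (List.prefix_append _ _).trans hτ, hk⟩
    · obtain ⟨τ, hτ, hk⟩ := h M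
      exact ⟨τ, (List.prefix_append _ _).trans hτ, hk⟩

theorem h5_sum (c : ℕ → ℕ) (A k t : ℕ) (h : ∀ i < t, c (k + i) * 2 ^ (k + i) ≤ A) :
    (∑ i ∈ Finset.range t, c (k + i)) * 2 ^ (k + t) + 2 * A ≤ A * 2 ^ (t + 1) := by
  induction t with
  | zero => simp; omega
  | succ t ih =>
    have h1 := ih fun i hi => h i (by omega)
    have h2 := h t (by omega)
    rw [Finset.sum_range_succ]
    have e1 : ((∑ i ∈ Finset.range t, c (k + i)) + c (k + t)) * 2 ^ (k + (t + 1)) =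
        2 * ((∑ i ∈ Finset.range t, c (k + i)) * 2 ^ (k + t)) +
          2 * (c (k + t) * 2 ^ (k + t)) := by ring
    have e2 : A * 2 ^ (t + 1 + 1) = 2 * (A * 2 ^ (t + 1)) := by ring
    rw [e1, e2]
    omega

theorem h5_sum' (c : ℕ → ℕ) (A k K : ℕ) (h : ∀ n, k ≤ n → n ≤ K → c n * 2 ^ n ≤ A) :
    (∑ n ∈ Finset.Icc k K, c n) * 2 ^ k ≤ 2 * A := by
  have e : ∑ n ∈ Finset.Icc k K, c n = ∑ i ∈ Finset.range (K + 1 - k), c (k + i) := by
    rw [← Finset.sum_Ico_eq_sum_range]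
    rfl
  have h1 := h5_sum c A k (K + 1 - k) fun i hi => h _ (by omega) (by omega)
  rw [e]
  have e1 : (∑ i ∈ Finset.range (K + 1 - k), c (k + i)) * 2 ^ (k + (K + 1 - k)) =
      (∑ i ∈ Finset.range (K + 1 - k), c (k + i)) * 2 ^ k * 2 ^ (K + 1 - k) := by ring
  have e2 : A * 2 ^ (K + 1 - k + 1) = (2 * A) * 2 ^ (K + 1 - k) := by ring
  rw [e1, e2] at h1
  exact Nat.le_of_mul_le_mul_right ((Nat.le_add_right _ _).trans h1) (by positivity)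

noncomputable def h5words (m : ℕ) : Finset (List Bool) := by
  classical
  exact (Finset.univ : Finset (Fin m → Bool)).image List.ofFn

theorem h5_mem_words (σ : List Bool) : σ ∈ h5words σ.length := by
  classical
  unfold h5words
  rw [Finset.mem_image]
  exact ⟨fun i => σ[i], Finset.mem_univ _, by simp⟩

theorem h5_card_words (m : ℕ) : (h5words m).card ≤ 2 ^ m := by
  classical
  unfold h5words
  refine Finset.card_image_le.trans ?_
  simp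

theorem h5PH_null (w : ℕ → ℕ → Finset (List Bool)) (D D' : ℕ → ℕ)
    (hw : ∀ n j, ∃ l, (∀ σ ∈ w n j, σ.length = l) ∧ (w n j).card * 2 ^ n < 2 ^ l) (m : ℕ) :
    nullV (B := Prop) (h5PH w D D' m) := by
  classical
  have key : ∀ k0 : ℕ, ∃ n : ℕ, ∃ G : Finset (List Bool), G.card * 2 ^ k0 ≤ 2 ^ n ∧
      ∀ σ : List Bool, σ.length = n ∧ σ ∉ G → ¬ h5PH w D D' m σ := by
    intro k0
    choose l hl1 hl2 using fun n => hw n (D n)
    set k := max m (k0 + 1) with hk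
    set L := (Finset.Icc k (D' k)).sup l with hL
    have hlL : ∀ n, k ≤ n → n ≤ D' k → l n ≤ L := fun n h1 h2 =>
      Finset.le_sup (f := l) (Finset.mem_Icc.2 ⟨h1, h2⟩)
    refine ⟨L, (Finset.Icc k (D' k)).biUnion fun n => (w n (D n)).biUnion fun ρ =>
      (h5words (L - l n)).image (fun t => ρ ++ t), ?_, ?_⟩
    · have h1 : ((Finset.Icc k (D' k)).biUnion fun n => (w n (D n)).biUnion fun ρ =>
          (h5words (L - l n)).image (fun t => ρ ++ t)).card ≤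
          ∑ n ∈ Finset.Icc k (D' k), (w n (D n)).card * 2 ^ (L - l n) := by
        refine Finset.card_biUnion_le.trans (Finset.sum_le_sum fun n _ => ?_)
        refine Finset.card_biUnion_le.trans ?_
        rw [← smul_eq_mul, ← Finset.sum_const]
        exact Finset.sum_le_sum fun ρ _ => Finset.card_image_le.trans (h5_card_words _)
      have h2 := h5_sum' (fun n => (w n (D n)).card * 2 ^ (L - l n)) (2 ^ L) k (D' k) (by
        intro n hn1 hn2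
        have h3 := hl2 n
        have h4 : 2 ^ L = 2 ^ l n * 2 ^ (L - l n) := by
          rw [← pow_add]
          congr 1
          have := hlL n hn1 hn2
          omega
        rw [h4]
        calc (w n (D n)).card * 2 ^ (L - l n) * 2 ^ n
            = ((w n (D n)).card * 2 ^ n) * 2 ^ (L - l n) := by ring
          _ ≤ 2 ^ l n * 2 ^ (L - l n) := Nat.mul_le_mul_right _ h3.le)
      have h3 : 2 * 2 ^ k0 ≤ 2 ^ k := by
        rw [← pow_succ']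
        exact Nat.pow_le_pow_right (by norm_num) (le_max_right _ _)
      have h4 : 2 * ((∑ n ∈ Finset.Icc k (D' k), (w n (D n)).card * 2 ^ (L - l n)) * 2 ^ k0) ≤
          2 * 2 ^ L := by
        calc 2 * ((∑ n ∈ Finset.Icc k (D' k), (w n (D n)).card * 2 ^ (L - l n)) * 2 ^ k0)
            = (∑ n ∈ Finset.Icc k (D' k), (w n (D n)).card * 2 ^ (L - l n)) * (2 * 2 ^ k0) := by
              ring
          _ ≤ (∑ n ∈ Finset.Icc k (D' k), (w n (D n)).card * 2 ^ (L - l n)) * 2 ^ k :=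
              Nat.mul_le_mul_left _ h3
          _ ≤ 2 * 2 ^ L := h2
      exact (Nat.mul_le_mul_right _ h1).trans (by omega)
    · rintro σ ⟨hσ1, hσ2⟩ h
      obtain ⟨τ, hτ, hu⟩ := h k
      obtain ⟨n, ⟨hn1, hn2⟩, ρ, hρ, hp⟩ := hu k ⟨le_max_left _ _, le_rfl⟩
      have h1 : ρ <+: σ := by
        refine List.prefix_of_prefix_length_le hp hτ ?_
        rw [hσ1, hl1 n ρ hρ]
        exact hlL n hn1 hn2
      obtain ⟨t, rfl⟩ := h1
      apply hσ2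
      simp only [Finset.mem_biUnion, Finset.mem_image]
      refine ⟨n, Finset.mem_Icc.2 ⟨hn1, hn2⟩, ρ, hρ, t, ?_, rfl⟩
      have h3 : t.length = L - l n := by
        have h4 := hl1 n ρ hρ
        rw [List.length_append] at hσ1
        omega
      rw [← h3]
      exact h5_mem_words t
  unfold nullV
  simp only [iInf_Prop_eq, iSup_Prop_eq]
  intro k0
  obtain ⟨n, G, h1, h2⟩ := key k0
  exact ⟨n, G, h1, fun σ hσ => h2 σ hσ⟩

theorem h5_ext {Z : List Bool → Prop} (hZ : ∀ σ, Z σ ↔ (Z (σ ++ [false]) ∨ Z (σ ++ [true])))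
    (L : ℕ) : ∀ {σ : List Bool}, Z σ → ∃ τ, σ <+: τ ∧ L ≤ τ.length ∧ Z τ := by
  induction L with
  | zero => exact fun {σ} h => ⟨σ, List.prefix_rfl, Nat.zero_le _, h⟩
  | succ L ih =>
    intro σ h
    obtain ⟨τ, h1, h2, h3⟩ := ih h
    rcases (hZ τ).1 h3 with h4 | h4
    · exact ⟨_, h1.trans (List.prefix_append _ _), by simp; omega, h4⟩
    · exact ⟨_, h1.trans (List.prefix_append _ _), by simp; omega, h4⟩

theorem h5_take {Z : List Bool → Prop} (hZ : ∀ σ, Z σ ↔ (Z (σ ++ [false]) ∨ Z (σ ++ [true])))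
    (t : List Bool) : ∀ σ : List Bool, Z (σ ++ t) → Z σ := by
  induction t with
  | nil => intro σ h; simpa using h
  | cons b t ih =>
    intro σ h
    rw [List.append_cons] at h
    have h1 := ih _ h
    rcases b with _ | _
    · exact (hZ σ).2 (Or.inl h1)
    · exact (hZ σ).2 (Or.inr h1)

theorem h5_cover (w : ℕ → ℕ → Finset (List Bool)) (D D' : ℕ → ℕ) (m : ℕ) {Z : List Bool → Prop}
    (hZ : ∀ σ, Z σ ↔ (Z (σ ++ [false]) ∨ Z (σ ++ [true])))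
    (h : ∀ k, m ≤ k → ∃ n, (k ≤ n ∧ n ≤ D' k) ∧ ∃ l, ∀ σ : List Bool,
      (σ.length = l ∧ ¬ ∃ ρ ∈ w n (D n), ρ <+: σ) → ¬ Z σ) {σ : List Bool} (hσ : Z σ) :
    h5PH w D D' m σ := by
  intro M
  choose! n hn l hl using h
  obtain ⟨τ, h1, h2, h3⟩ := h5_ext hZ ((Finset.Icc m M).sup l) hσ
  refine ⟨τ, h1, fun k hk => ⟨n k, hn k hk.1, ?_⟩⟩
  have hL : l k ≤ τ.length :=
    (Finset.le_sup (f := l) (Finset.mem_Icc.2 hk)).trans h2
  have h4 : Z (τ.take (l k)) := by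
    refine h5_take hZ (τ.drop (l k)) _ ?_
    rwa [List.take_append_drop]
  by_contra hcon
  refine hl k hk.1 (τ.take (l k)) ⟨by simp [hL], ?_⟩ h4
  rintro ⟨ρ, hρ, hp⟩
  exact hcon ⟨ρ, hρ, hp.trans (List.take_prefix _ _)⟩

/-! ## Generic homomorphisms -/

section Gen

variable {B : Type u} [CompleteBooleanAlgebra B]

/-- a homomorphism which respects the given suprema and infima -/
structure H5Gen (φ : B → Prop) (Q : Set (Set B)) : Prop where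
  top : φ ⊤
  bot : ¬ φ ⊥
  inf : ∀ a b, φ (a ⊓ b) ↔ φ a ∧ φ b
  sup : ∀ a b, φ (a ⊔ b) ↔ φ a ∨ φ b
  compl : ∀ a, φ aᶜ ↔ ¬ φ a
  sSup : ∀ s ∈ Q, φ (sSup s) ↔ ∃ a ∈ s, φ a
  sInf : ∀ s ∈ Q, φ (sInf s) ↔ ∀ a ∈ s, φ a

theorem h5_exists_gen {Q : Set (Set B)} (hQ : Q.Countable) (T : ℕ → List Bool → B) {b : B}
    (hb : b ≠ ⊥) : ∃ φ : B → Prop, H5Gen φ Q ∧ φ b ∧
      ∀ n, (φ (nullV (T n)) ↔ nullV (B := Prop) fun σ => φ (T n σ)) := by
  obtain ⟨J, hJ⟩ := (hQ.insert (∅ : Set B)).exists_eq_range (Set.insert_nonempty _ _)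
  obtain ⟨φ, h1, h2, h3⟩ := exists_gen_trees J T hb
  refine ⟨φ, ⟨h1.top, h1.bot, h1.inf, h1.sup, h1.compl, ?_, ?_⟩, h2, h3⟩
  · intro s hs
    have : s ∈ Set.range J := hJ ▸ Set.mem_insert_of_mem _ hs
    obtain ⟨i, rfl⟩ := this
    exact h1.sSup i
  · intro s hs
    have : s ∈ Set.range J := hJ ▸ Set.mem_insert_of_mem _ hs
    obtain ⟨i, rfl⟩ := this
    exact h1.sInf i

namespace H5Gen

variable {φ : B → Prop} {Q : Set (Set B)} (h : H5Gen φ Q)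
include h

theorem mono {a b : B} (hab : a ≤ b) (ha : φ a) : φ b := by
  have h1 : a ⊓ b = a := inf_eq_left.2 hab
  rw [← h1] at ha
  exact ((h.inf a b).1 ha).2

theorem iSup {ι : Type} (f : ι → B) (hf : Set.range f ∈ Q) : φ (⨆ i, f i) ↔ ∃ i, φ (f i) := by
  rw [← sSup_range, h.sSup _ hf]
  simp

theorem iInf {ι : Type} (f : ι → B) (hf : Set.range f ∈ Q) : φ (⨅ i, f i) ↔ ∀ i, φ (f i) := by
  rw [← sInf_range, h.sInf _ hf]
  simp

theorem iSup_prop (p : Prop) (a : B) : φ (⨆ _ : p, a) ↔ p ∧ φ a := by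
  by_cases hp : p
  · simp [hp]
  · simp [hp, h.bot]

theorem iInf_prop (p : Prop) (a : B) : φ (⨅ _ : p, a) ↔ (p → φ a) := by
  by_cases hp : p
  · simp [hp]
  · simp [hp, h.top]

theorem himp (a b : B) : φ (a ⇨ b) ↔ (φ a → φ b) := by
  rw [himp_eq, h.sup, h.compl]
  tauto

/-- the value of a name of a number -/
theorem exists_val {g : ℕ → B} (hmono : ∀ k, g k ≤ g (k + 1)) (htot : ⨆ k, g k = ⊤)
    (h1 : Set.range g ∈ Q) (h2 : ∀ m, Set.range (fun j => ⨅ _ : j < m, (g j)ᶜ) ∈ Q) :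
    ∃ D : ℕ, (∀ k, φ (g k) ↔ D ≤ k) ∧ ∀ k, φ (eqN g k) ↔ k = D := by
  classical
  have h3 : ∃ k, φ (g k) := (h.iSup g h1).1 (htot ▸ h.top)
  have hm : ∀ k l, k ≤ l → g k ≤ g l := fun k l hkl => monotone_nat_of_le_succ hmono hkl
  obtain ⟨D, h4⟩ : ∃ D, ∀ k, φ (g k) ↔ D ≤ k := ⟨Nat.find h3, fun k =>
    ⟨fun hk => Nat.find_min' h3 hk, fun hk => h.mono (hm _ _ hk) (Nat.find_spec h3)⟩⟩
  refine ⟨D, h4, fun k => ?_⟩
  have h5 : φ (eqN g k) ↔ φ (g k) ∧ ∀ j, j < k → ¬ φ (g j) := by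
    unfold eqN
    rw [h.inf, h.iInf _ (h2 k)]
    simp only [h.iInf_prop, h.compl]
  rw [h5]
  simp only [h4]
  constructor
  · rintro ⟨h6, h7⟩
    by_contra hcon
    exact h7 D (by omega) le_rfl
  · rintro rfl
    exact ⟨le_rfl, fun j hj => by omega⟩

end H5Gen

end Gen

/-! ## The covers -/

section Cover

variable {B : Type u} [CompleteBooleanAlgebra B]

/-- the value of: `[τ]` is contained in the `n`-th guess -/
def h5V (w : ℕ → ℕ → Finset (List Bool)) (d : ℕ → ℕ → B) (n : ℕ) (τ : List Bool) : B :=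
  ⨆ j : ℕ, ⨆ _ : ∃ ρ ∈ w n j, ρ <+: τ, eqN (d n) j

def h5U (w : ℕ → ℕ → Finset (List Bool)) (d d' : ℕ → ℕ → B) (k : ℕ) (τ : List Bool) : B :=
  ⨆ N : ℕ, eqN (d' k) N ⊓ ⨆ n : ℕ, ⨆ _ : k ≤ n ∧ n ≤ N, h5V w d n τ

def h5H (w : ℕ → ℕ → Finset (List Bool)) (d d' : ℕ → ℕ → B) (m : ℕ) (σ : List Bool) : B :=
  ⨅ M : ℕ, ⨆ τ : List Bool, ⨆ _ : σ <+: τ, ⨅ k : ℕ, ⨅ _ : m ≤ k ∧ k ≤ M, h5U w d d' k τ

/-- the value of: the closed set `Z` is contained in the `n`-th guess -/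
def h5X (w : ℕ → ℕ → Finset (List Bool)) (d : ℕ → ℕ → B) (Z : List Bool → B) (n : ℕ) : B :=
  ⨆ j : ℕ, eqN (d n) j ⊓
    (⨆ l : ℕ, ⨅ σ : List Bool, ⨅ _ : σ.length = l ∧ ¬ ∃ τ ∈ w n j, τ <+: σ, (Z σ)ᶜ)

def h5g (w : ℕ → ℕ → Finset (List Bool)) (d : ℕ → ℕ → B) (Z : List Bool → B) (k N : ℕ) : B :=
  ⨆ n : ℕ, ⨆ _ : k ≤ n ∧ n ≤ N, h5X w d Z n

/-- the families of elements whose suprema and infima we need -/
def h5J (w : ℕ → ℕ → Finset (List Bool)) (d d' : ℕ → ℕ → B) (Z : List Bool → B)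
    (x : ℕ × ℕ × ℕ × List Bool) : Set (Set B) :=
  {Set.range (d x.1), Set.range (d' x.1),
    Set.range (fun j => ⨅ _ : j < x.2.1, (d x.1 j)ᶜ),
    Set.range (fun j => ⨅ _ : j < x.2.1, (d' x.1 j)ᶜ),
    Set.range (fun j : ℕ => ⨆ _ : ∃ ρ ∈ w x.1 j, ρ <+: x.2.2.2, eqN (d x.1) j),
    Set.range (fun N : ℕ =>
      eqN (d' x.1) N ⊓ ⨆ n : ℕ, ⨆ _ : x.1 ≤ n ∧ n ≤ N, h5V w d n x.2.2.2),
    Set.range (fun n : ℕ => ⨆ _ : x.1 ≤ n ∧ n ≤ x.2.1, h5V w d n x.2.2.2),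
    Set.range (fun M : ℕ =>
      ⨆ τ : List Bool, ⨆ _ : x.2.2.2 <+: τ, ⨅ k : ℕ, ⨅ _ : x.1 ≤ k ∧ k ≤ M, h5U w d d' k τ),
    Set.range (fun τ : List Bool =>
      ⨆ _ : x.2.2.2 <+: τ, ⨅ k : ℕ, ⨅ _ : x.1 ≤ k ∧ k ≤ x.2.1, h5U w d d' k τ),
    Set.range (fun k : ℕ => ⨅ _ : x.1 ≤ k ∧ k ≤ x.2.1, h5U w d d' k x.2.2.2),
    Set.range (fun j : ℕ => eqN (d x.1) j ⊓
      (⨆ l : ℕ, ⨅ σ : List Bool, ⨅ _ : σ.length = l ∧ ¬ ∃ τ ∈ w x.1 j, τ <+: σ, (Z σ)ᶜ)),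
    Set.range (fun l : ℕ =>
      ⨅ σ : List Bool, ⨅ _ : σ.length = l ∧ ¬ ∃ τ ∈ w x.1 x.2.1, τ <+: σ, (Z σ)ᶜ),
    Set.range (fun σ : List Bool =>
      ⨅ _ : σ.length = x.2.2.1 ∧ ¬ ∃ τ ∈ w x.1 x.2.1, τ <+: σ, (Z σ)ᶜ),
    Set.range (fun n : ℕ => ⨆ _ : x.1 ≤ n ∧ n ≤ x.2.1, h5X w d Z n),
    Set.range (fun n : ℕ => ⨅ _ : x.1 ≤ n, ⨅ k : ℕ, d' n k ⇨ h5g w d Z n k),
    Set.range (fun k : ℕ => d' x.1 k ⇨ h5g w d Z x.1 k)}

def h5Q (w : ℕ → ℕ → Finset (List Bool)) (d d' : ℕ → ℕ → B) (Z : List Bool → B) : Set (Set B) :=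
  ⋃ x, h5J w d d' Z x

theorem h5Q_countable (w : ℕ → ℕ → Finset (List Bool)) (d d' : ℕ → ℕ → B)
    (Z : List Bool → B) : (h5Q w d d' Z).Countable := by
  refine Set.countable_iUnion fun x => ?_
  unfold h5J
  refine Set.Finite.countable ?_
  exact Set.toFinite _

theorem h5Q_mem (w : ℕ → ℕ → Finset (List Bool)) (d d' : ℕ → ℕ → B)
    (Z : List Bool → B) (x : ℕ × ℕ × ℕ × List Bool) {s : Set B} (hs : s ∈ h5J w d d' Z x) :
    s ∈ h5Q w d d' Z := Set.mem_iUnion.2 ⟨x, hs⟩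

theorem h5_exists (w : ℕ → ℕ → Finset (List Bool)) {S S' : Set B} {d d' : ℕ → ℕ → B}
    (hd : IsFn S d) (hd' : IsFn S' d') (Z : List Bool → B) {b : B} (hb : b ≠ ⊥) :
    ∃ φ : B → Prop, H5Gen φ (h5Q w d d' Z) ∧ φ b ∧
      (∀ n, (φ (nullV (h5H w d d' n)) ↔ nullV (B := Prop) fun σ => φ (h5H w d d' n σ))) ∧
      ∃ D D' : ℕ → ℕ, (∀ n k, φ (d' n k) ↔ D' n ≤ k) ∧
        (∀ m σ, φ (h5H w d d' m σ) ↔ h5PH w D D' m σ) ∧
        ∀ n, φ (h5X w d Z n) ↔ ∃ l, ∀ σ : List Bool,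
          (σ.length = l ∧ ¬ ∃ ρ ∈ w n (D n), ρ <+: σ) → ¬ φ (Z σ) := by
  obtain ⟨φ, h, h1, h2⟩ := h5_exists_gen (h5Q_countable w d d' Z) (h5H w d d') hb
  refine ⟨φ, h, h1, h2, ?_⟩
  have q := fun x {s} => h5Q_mem w d d' Z x (s := s)
  choose D hD1 hD2 using fun n => h.exists_val (hd.mono n) (hd.tot n) (q (n, 0, 0, []) (by simp [h5J]))
    (fun m => q (n, m, 0, []) (by simp [h5J]))
  choose D' hD'1 hD'2 using fun n => h.exists_val (hd'.mono n) (hd'.tot n) (q (n, 0, 0, []) (by simp [h5J]))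
    (fun m => q (n, m, 0, []) (by simp [h5J]))
  refine ⟨D, D', hD'1, ?_, ?_⟩
  · have hV : ∀ n τ, φ (h5V w d n τ) ↔ ∃ ρ ∈ w n (D n), ρ <+: τ := by
      intro n τ
      unfold h5V
      rw [h.iSup _ (q (n, 0, 0, τ) (by simp [h5J]))]
      simp only [h.iSup_prop, hD2]
      constructor
      · rintro ⟨j, hj, rfl⟩
        exact hj
      · intro hj
        exact ⟨D n, hj, rfl⟩
    have hU : ∀ k τ, φ (h5U w d d' k τ) ↔ h5PU w D D' k τ := by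
      intro k τ
      unfold h5U h5PU
      rw [h.iSup _ (q (k, 0, 0, τ) (by simp [h5J]))]
      constructor
      · rintro ⟨N, hN⟩
        rw [h.inf, h.iSup _ (q (k, N, 0, τ) (by simp [h5J])), hD'2] at hN
        obtain ⟨rfl, n, hn⟩ := hN
        rw [h.iSup_prop, hV] at hn
        exact ⟨n, hn.1, hn.2⟩
      · rintro ⟨n, hn1, hn2⟩
        refine ⟨D' k, ?_⟩
        rw [h.inf, h.iSup _ (q (k, D' k, 0, τ) (by simp [h5J])), hD'2]
        refine ⟨rfl, n, ?_⟩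
        rw [h.iSup_prop, hV]
        exact ⟨hn1, hn2⟩
    intro m σ
    unfold h5H h5PH
    rw [h.iInf _ (q (m, 0, 0, σ) (by simp [h5J]))]
    refine forall_congr' fun M => ?_
    rw [h.iSup _ (q (m, M, 0, σ) (by simp [h5J]))]
    refine exists_congr fun τ => ?_
    rw [h.iSup_prop, h.iInf _ (q (m, M, 0, τ) (by simp [h5J]))]
    refine and_congr_right fun _ => forall_congr' fun k => ?_
    rw [h.iInf_prop, hU]
  · intro n
    unfold h5X
    rw [h.iSup _ (q (n, 0, 0, []) (by simp [h5J]))]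
    constructor
    · rintro ⟨j, hj⟩
      rw [h.inf, hD2, h.iSup _ (q (n, j, 0, []) (by simp [h5J]))] at hj
      obtain ⟨rfl, l, hl⟩ := hj
      rw [h.iInf _ (q (n, D n, l, []) (by simp [h5J]))] at hl
      refine ⟨l, fun σ hσ => ?_⟩
      have := hl σ
      rw [h.iInf_prop, h.compl] at this
      exact this hσ
    · rintro ⟨l, hl⟩
      refine ⟨D n, ?_⟩
      rw [h.inf, hD2, h.iSup _ (q (n, D n, 0, []) (by simp [h5J]))]
      refine ⟨rfl, l, ?_⟩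
      rw [h.iInf _ (q (n, D n, l, []) (by simp [h5J]))]
      intro σ
      rw [h.iInf_prop, h.compl]
      exact hl σ

theorem h5_not_le {a b : B} (h : ¬ a ≤ b) : a ⊓ bᶜ ≠ ⊥ := fun h2 => h (by
  rwa [← disjoint_iff, disjoint_compl_right_iff] at h2)

theorem h5_isPr (w : ℕ → ℕ → Finset (List Bool)) {S S' : Set B} {d d' : ℕ → ℕ → B}
    (hd : IsFn S d) (hd' : IsFn S' d') (m : ℕ) : IsPr (h5H w d d' m) := by
  intro σ
  apply le_antisymm
  · by_contra hcon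
    obtain ⟨φ, h, h1, -, D, D', -, h3, -⟩ := h5_exists w hd hd' (fun _ => ⊥) (h5_not_le hcon)
    rw [h.inf, h.compl, h.sup, h3, h3, h3, h5PH_iff] at h1
    exact h1.2 h1.1
  · by_contra hcon
    obtain ⟨φ, h, h1, -, D, D', -, h3, -⟩ := h5_exists w hd hd' (fun _ => ⊥) (h5_not_le hcon)
    rw [h.inf, h.compl, h.sup, h3, h3, h3, h5PH_iff w D D' m σ] at h1
    exact h1.2 h1.1

theorem h5_null (w : ℕ → ℕ → Finset (List Bool))
    (hw : ∀ n j, ∃ l, (∀ σ ∈ w n j, σ.length = l) ∧ (w n j).card * 2 ^ n < 2 ^ l)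
    {S S' : Set B} {d d' : ℕ → ℕ → B}
    (hd : IsFn S d) (hd' : IsFn S' d') (m : ℕ) : nullV (h5H w d d' m) = ⊤ := by
  rw [eq_top_iff]
  by_contra hcon
  obtain ⟨φ, h, h1, h2, D, D', -, h3, -⟩ := h5_exists w hd hd' (fun _ => ⊥) (h5_not_le hcon)
  rw [h.inf, h.compl, h2] at h1
  apply h1.2
  have e : (fun σ => φ (h5H w d d' m σ)) = h5PH w D D' m := by
    funext σ
    exact propext (h3 m σ)
  rw [e]
  exact h5PH_null w D D' hw m

theorem h5_le_subV (w : ℕ → ℕ → Finset (List Bool)) {S S' : Set B} {d d' : ℕ → ℕ → B}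
    (hd : IsFn S d) (hd' : IsFn S' d') {Z : List Bool → B} (hZ : IsPr Z) (m : ℕ) :
    (⨅ n : ℕ, ⨅ _ : m ≤ n, ⨅ k : ℕ, d' n k ⇨ h5g w d Z n k) ≤ subV Z (h5H w d d' m) := by
  rw [le_subV_iff]
  intro σ
  by_contra hcon
  obtain ⟨φ, h, h1, -, D, D', h2, h3, h4⟩ := h5_exists w hd hd' Z (h5_not_le hcon)
  have q := fun x {s} => h5Q_mem w d d' Z x (s := s)
  rw [h.inf, h.compl, h.inf, h3, h.iInf _ (q (m, 0, 0, []) (by simp [h5J]))] at h1
  obtain ⟨⟨h5, h6⟩, h7⟩ := h1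
  apply h7
  refine h5_cover w D D' m (Z := fun σ => φ (Z σ)) ?_ ?_ h6
  · intro σ
    show φ (Z σ) ↔ _
    rw [hZ σ, h.sup]
  · intro k hk
    have h8 := h5 k
    rw [h.iInf_prop] at h8
    have h9 := h8 hk
    rw [h.iInf _ (q (k, 0, 0, []) (by simp [h5J]))] at h9
    have h10 := h9 (D' k)
    rw [h.himp] at h10
    have h11 := h10 ((h2 k _).2 le_rfl)
    unfold h5g at h11
    rw [h.iSup _ (q (k, D' k, 0, []) (by simp [h5J]))] at h11
    obtain ⟨n, hn⟩ := h11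
    rw [h.iSup_prop, h4] at hn
    exact ⟨n, hn.1, hn.2⟩

end Cover

section H

variable {B : Type 1} [CompleteBooleanAlgebra B]

theorem null_cover (I : HIter B) (α : Ordinal.{0}) :
    ∃ H : ℕ → List Bool → B, (∀ m, IsPr (H m)) ∧ (∀ m, nullV (H m) = ⊤) ∧
      ∀ Z : List Bool → B, (∀ σ, Z σ ∈ I.S α) → IsPr Z → nullV Z = ⊤ →
        ⨆ m, subV Z (H m) = ⊤ := by
  obtain ⟨w, hw1, hw2⟩ := h5_enum
  have hd := I.d_fn α
  have hd' := I.d_fn (Order.succ α)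
  refine ⟨h5H w (I.d α) (I.d (Order.succ α)), h5_isPr w hd hd', h5_null w hw1 hd hd', ?_⟩
  intro Z hZ hpr hnull
  have hsub := I.sub (Order.succ α)
  have hg : IsFn (I.S (Order.succ α)) (h5g w (I.d α) Z) := by
    refine ⟨?_, ?_, ?_⟩
    · intro k N
      refine hsub.iSup_mem fun n => hsub.iSup_mem fun _ => hsub.iSup_mem fun j => ?_
      refine hsub.inf_mem (h43_eqN_mem hsub (fun k => hd.mem n k) j) ?_
      exact hsub.iSup_mem fun l => hsub.iInf_mem fun σ => hsub.iInf_mem fun _ =>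
        hsub.compl_mem _ (I.mono _ _ (Order.le_succ α) (hZ σ))
    · intro k N
      refine iSup_mono fun n => ?_
      refine iSup_le fun hn => ?_
      exact le_iSup_of_le ⟨hn.1, by omega⟩ le_rfl
    · intro k
      rw [eq_top_iff, ← hechler_guess I α w hw2 hZ hpr hnull k]
      refine iSup_le fun n => iSup_le fun hn => ?_
      refine le_iSup_of_le n (le_iSup_of_le n (le_iSup_of_le ⟨hn, le_rfl⟩ ?_))
      exact le_rfl
  rw [eq_top_iff, ← hechler_dom I (Order.succ α) hg]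
  exact iSup_mono fun m => h5_le_subV w hd hd' hpr m

end H

end Pool.Agent.Helper33.HM
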